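import Mathlib

/-!
# Matrix symmetry and isomorphism (MP_e2e0ab_lc)

For a square 0/1 matrix `A` such that every connected component of its bipartite graph with as
many rows as columns has an odd number of bridges: the rows of `A` can be reordered to a symmetric
matrix iff `A` and its transpose agree up to independent row and column permutations.
-/

namespace OddBridges

open SimpleGraph

section graph

variable {V : Type}

/-- `g` is an automorphism of `G` which exchanges the two colours of `c`. -/
structure Swap (G : SimpleGraph V) (c : V → Bool) (g : Equiv.Perm V) : Prop where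
  adj : ∀ x y, G.Adj (g x) (g y) ↔ G.Adj x y
  col : ∀ x, c (g x) = !c x

variable {G : SimpleGraph V} {c : V → Bool} {g : Equiv.Perm V}

lemma adj_pow {G : SimpleGraph V} (h : ∀ x y, G.Adj (g x) (g y) ↔ G.Adj x y) (m : ℕ) :
    ∀ x y, G.Adj ((g ^ m) x) ((g ^ m) y) ↔ G.Adj x y := by
  induction m with
  | zero => intro x y; simp
  | succ m ih =>
    intro x y
    rw [pow_succ, Equiv.Perm.mul_apply, Equiv.Perm.mul_apply, ih, h]

lemma Swap.pow_odd (h : Swap G c g) (m : ℕ) : Swap G c (g ^ (2 * m + 1)) := by
  refine ⟨adj_pow h.adj _, ?_⟩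
  induction m with
  | zero => intro x; simpa using h.col x
  | succ m ih =>
    intro x
    have : g ^ (2 * (m + 1) + 1) = g ^ (2 * m + 1) * (g * g) := by
      rw [show 2 * (m + 1) + 1 = (2 * m + 1) + 2 by ring, pow_add, pow_two]
    rw [this, Equiv.Perm.mul_apply, ih, Equiv.Perm.mul_apply, h.col, h.col]
    simp

/-- an automorphism maps reachability in `G` without an edge -/
lemma reach_del (ha : ∀ x y, G.Adj (g x) (g y) ↔ G.Adj x y) {u v x y : V}
    (h : (G.deleteEdges {s(u, v)}).Reachable x y) :
    (G.deleteEdges {s(g u, g v)}).Reachable (g x) (g y) := by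
  let f : G.deleteEdges {s(u, v)} →g G.deleteEdges {s(g u, g v)} :=
    { toFun := g
      map_rel' := by
        intro a b hab
        rw [deleteEdges_adj] at hab ⊢
        refine ⟨(ha a b).2 hab.1, fun h' => hab.2 ?_⟩
        rw [Set.mem_singleton_iff] at h' ⊢
        have h2 : Sym2.map g s(a, b) = Sym2.map g s(u, v) := h'
        exact Sym2.map.injective g.injective h2 }
  exact h.map f

lemma reach_del' (ha : ∀ x y, G.Adj (g x) (g y) ↔ G.Adj x y) {u v x y : V}
    (h : (G.deleteEdges {s(g u, g v)}).Reachable (g x) (g y)) :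
    (G.deleteEdges {s(u, v)}).Reachable x y := by
  have ha' : ∀ x y, G.Adj (g.symm x) (g.symm y) ↔ G.Adj x y := by
    intro x y
    have := ha (g.symm x) (g.symm y)
    rw [g.apply_symm_apply, g.apply_symm_apply] at this
    exact this.symm
  have := reach_del ha' h
  simpa only [g.symm_apply_apply] using this

lemma reach_map {X : SimpleGraph V} (ha : ∀ x y, X.Adj x y → X.Adj (g x) (g y)) {x y : V}
    (h : X.Reachable x y) : X.Reachable (g x) (g y) := by
  let f : X →g X := { toFun := g, map_rel' := fun {a b} hab => ha a b hab }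
  exact h.map f

lemma reach_pow {X : SimpleGraph V} (ha : ∀ x y, X.Adj x y → X.Adj (g x) (g y)) (m : ℕ) {x y : V}
    (h : X.Reachable x y) : X.Reachable ((g ^ m) x) ((g ^ m) y) := by
  induction m with
  | zero => simpa using h
  | succ m ih =>
    rw [pow_succ', Equiv.Perm.mul_apply, Equiv.Perm.mul_apply]
    exact reach_map ha ih

/-- after the deletion of an edge `uv` every vertex of the component is connected to `u` or `v` -/
lemma reach_or {u v w z : V} (p : G.Walk z w) :
    (G.deleteEdges {s(u, v)}).Reachable z w ∨ (G.deleteEdges {s(u, v)}).Reachable u w ∨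
      (G.deleteEdges {s(u, v)}).Reachable v w := by
  induction p with
  | nil => exact Or.inl (Reachable.refl _)
  | @cons a b d hab p ih =>
    rcases ih with ih | ih | ih
    · by_cases he : s(a, b) = s(u, v)
      · rw [Sym2.eq_iff] at he
        rcases he with ⟨-, rfl⟩ | ⟨-, rfl⟩
        · exact Or.inr (Or.inr ih)
        · exact Or.inr (Or.inl ih)
      · left
        have : (G.deleteEdges {s(u, v)}).Adj a b := by
          rw [deleteEdges_adj]
          exact ⟨hab, he⟩
        exact this.reachable.trans ih
    · exact Or.inr (Or.inl ih)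
    · exact Or.inr (Or.inr ih)

/-- The bridges in the component of `w`. -/
def Br (G : SimpleGraph V) (w : V) (e : Sym2 V) : Prop :=
  e ∈ G.edgeSet ∧ G.IsBridge e ∧ ∃ v ∈ e, G.Reachable w v

lemma Br_map (ha : ∀ x y, G.Adj (g x) (g y) ↔ G.Adj x y) {w : V} (hw : G.Reachable w (g w))
    {e : Sym2 V} (he : Br G w e) : Br G w (Sym2.map g e) := by
  induction e using Sym2.ind with
  | _ u v =>
    obtain ⟨h1, h2, x, hx, hwx⟩ := he
    refine ⟨?_, ?_, g x, ?_, ?_⟩
    · rw [Sym2.map_mk, mem_edgeSet] at *
      exact (ha u v).2 h1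
    · rw [Sym2.map_mk]
      rw [isBridge_iff] at h2 ⊢
      exact fun h => h2 (reach_del' ha h)
    · exact Sym2.mem_map.2 ⟨x, hx, rfl⟩
    · exact hw.trans (reach_map (fun x y h => (ha x y).2 h) hwx)

/-- in an invariant component with an odd number of bridges an automorphism of order `2 ^ k` which
exchanges the colours inverts a bridge -/
lemma exists_inverted [Finite V] (hs : Swap G c g) {k : ℕ} (hk : g ^ 2 ^ k = 1)
    {w : V} (hw : G.Reachable w (g w)) (hodd : Odd (Nat.card {e : Sym2 V // Br G w e})) :
    ∃ u v, G.Adj u v ∧ ¬ (G.deleteEdges {s(u, v)}).Reachable u v ∧ g u = v ∧ g v = u ∧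
      G.Reachable w u := by
  classical
  have := Fintype.ofFinite V
  have hinj : Function.Injective
      (fun e : {e : Sym2 V // Br G w e} =>
        (⟨Sym2.map g e.1, Br_map hs.adj hw e.2⟩ : {e : Sym2 V // Br G w e})) := by
    intro a b hab
    have := congrArg Subtype.val hab
    exact Subtype.ext (Sym2.map.injective g.injective this)
  let σ : Equiv.Perm {e : Sym2 V // Br G w e} :=
    Equiv.ofBijective _ ((Finite.injective_iff_bijective).1 hinj)
  have hσ : ∀ (m : ℕ) (e : {e : Sym2 V // Br G w e}),
      ((σ ^ m) e).1 = Sym2.map (⇑(g ^ m)) e.1 := by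
    intro m
    induction m with
    | zero => intro e; simp
    | succ m ih =>
      intro e
      rw [pow_succ', Equiv.Perm.mul_apply]
      show Sym2.map g ((σ ^ m) e).1 = _
      rw [ih, Sym2.map_map, pow_succ']
      rfl
  have hσk : σ ^ 2 ^ k = 1 := by
    ext1 e
    apply Subtype.ext
    rw [hσ, hk]
    simp
  have h2 : ¬ 2 ∣ Fintype.card {e : Sym2 V // Br G w e} := by
    rw [← Nat.card_eq_fintype_card]
    rw [Nat.odd_iff] at hodd
    omega
  obtain ⟨⟨e, he⟩, hfix⟩ := Equiv.Perm.exists_fixed_point_of_prime (p := 2) h2 hσk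
  have hfix' : Sym2.map g e = e := congrArg Subtype.val hfix
  induction e using Sym2.ind with
  | _ u v =>
    obtain ⟨h1, h2, x, hx, hwx⟩ := he
    rw [mem_edgeSet] at h1
    rw [Sym2.map_mk, Sym2.eq_iff] at hfix'
    have hg : g u = v ∧ g v = u := by
      rcases hfix' with ⟨h, -⟩ | h
      · exfalso
        have := hs.col u
        rw [h] at this
        revert this
        cases c u <;> simp
      · exact h
    refine ⟨u, v, h1, h2, hg.1, hg.2, ?_⟩
    rw [Sym2.mem_iff] at hx
    rcases hx with rfl | rfl
    · exact hwx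
    · exact hwx.trans h1.reachable.symm

/-- `G` without the edges inverted by `g`. -/
def Cut (G : SimpleGraph V) (g : Equiv.Perm V) : SimpleGraph V where
  Adj x y := G.Adj x y ∧ ¬ (g x = y ∧ g y = x)
  symm := ⟨fun _ _ h => ⟨h.1.symm, fun h' => h.2 ⟨h'.2, h'.1⟩⟩⟩
  loopless := ⟨fun _ h => G.loopless.irrefl _ h.1⟩

lemma Cut_map (ha : ∀ x y, G.Adj (g x) (g y) ↔ G.Adj x y) (x y : V) (h : (Cut G g).Adj x y) :
    (Cut G g).Adj (g x) (g y) := by
  refine ⟨(ha x y).2 h.1, fun h' => h.2 ⟨g.injective h'.1, g.injective h'.2⟩⟩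

lemma Cut_le : Cut G g ≤ G := fun _ _ h => h.1

/-- `w` and `g w` are in different components of `Cut G g` -/
lemma cut_not_reach [Finite V] (hs : Swap G c g) {k : ℕ} (hk : g ^ 2 ^ k = 1)
    (hodd : ∀ w, G.Reachable w (g w) → Odd (Nat.card {e : Sym2 V // Br G w e})) (w : V) :
    ¬ (Cut G g).Reachable w (g w) := by
  intro hr
  have hw : G.Reachable w (g w) := hr.mono Cut_le
  obtain ⟨u, v, huv, hb, hu, hv, hwu⟩ := exists_inverted hs hk hw (hodd w hw)
  have hle : Cut G g ≤ G.deleteEdges {s(u, v)} := by
    intro x y h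
    rw [deleteEdges_adj]
    refine ⟨h.1, fun h' => ?_⟩
    rw [Set.mem_singleton_iff, Sym2.eq_iff] at h'
    rcases h' with ⟨rfl, rfl⟩ | ⟨rfl, rfl⟩
    · exact h.2 ⟨hu, hv⟩
    · exact h.2 ⟨hv, hu⟩
  have hr' := hr.mono hle
  obtain ⟨p⟩ := hwu.symm
  have hkey : ∀ x y, (G.deleteEdges {s(u, v)}).Reachable x y →
      (G.deleteEdges {s(u, v)}).Reachable (g x) (g y) := by
    intro x y h
    have := reach_del hs.adj h
    rwa [hu, hv, Sym2.eq_swap] at this
  have hu' : (G.deleteEdges {s(u, v)}).Reachable u w →
      (G.deleteEdges {s(u, v)}).Reachable u v := by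
    intro h
    have h1 := hkey _ _ h
    rw [hu] at h1
    exact h.trans (hr'.trans h1.symm)
  have hv' : (G.deleteEdges {s(u, v)}).Reachable v w →
      (G.deleteEdges {s(u, v)}).Reachable u v := by
    intro h
    have h1 := hkey _ _ h
    rw [hv] at h1
    exact h1.trans (hr'.symm.trans h.symm)
  rcases reach_or (u := u) (v := v) p with h | h | h
  · exact hb (hu' h)
  · exact hb (hu' h)
  · exact hb (hv' h)

/-- a two-colouring which is constant on the components of `Cut G g` and exchanged by `g` -/
lemma exists_colour [Finite V] [Nonempty V] (hs : Swap G c g) {k : ℕ} (hk : g ^ 2 ^ k = 1)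
    (hodd : ∀ w, G.Reachable w (g w) → Odd (Nat.card {e : Sym2 V // Br G w e})) :
    ∃ h : V → Bool, (∀ x y, (Cut G g).Adj x y → h x = h y) ∧ ∀ x, h (g x) = !h x := by
  classical
  have hk0 : k ≠ 0 := by
    rintro rfl
    obtain ⟨x⟩ := ‹Nonempty V›
    have h1 := hs.col x
    have h2 : g = 1 := by simpa using hk
    rw [h2] at h1
    revert h1
    simp
  obtain ⟨M, hM⟩ : ∃ M, 2 ^ k = 2 * M := ⟨2 ^ (k - 1), by
    rw [← pow_succ']; congr 1; omega⟩
  have hMpos : 0 < M := by
    have := Nat.pos_of_ne_zero (pow_ne_zero k (two_ne_zero (α := ℕ)))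
    omega
  rw [hM] at hk
  have hmap := Cut_map hs.adj
  have hper : ∀ (j : ℕ) x, (g ^ (2 * M * j)) x = x := by
    intro j x
    rw [pow_mul, hk, one_pow]
    rfl
  -- the equivalence relation
  let r : V → V → Prop := fun x y => ∃ j : ℕ, (Cut G g).Reachable ((g ^ (2 * j)) x) y
  have hrefl : ∀ x, r x x := fun x => ⟨0, by simp⟩
  have hsymm : ∀ x y, r x y → r y x := by
    rintro x y ⟨j, hj⟩
    refine ⟨j * (M - 1), ?_⟩
    have h1 := reach_pow hmap (2 * (j * (M - 1))) hj
    rw [← Equiv.Perm.mul_apply, ← pow_add] at h1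
    have : 2 * (j * (M - 1)) + 2 * j = 2 * M * j := by
      obtain ⟨N, rfl⟩ : ∃ N, M = N + 1 := ⟨M - 1, by omega⟩
      simp only [Nat.add_sub_cancel]
      ring
    rw [this, hper] at h1
    exact h1.symm
  have htrans : ∀ x y z, r x y → r y z → r x z := by
    rintro x y z ⟨i, hi⟩ ⟨j, hj⟩
    refine ⟨j + i, ?_⟩
    have h1 := reach_pow hmap (2 * j) hi
    rw [← Equiv.Perm.mul_apply, ← pow_add, ← mul_add] at h1
    exact h1.trans hj
  have hne : ∀ x, ¬ r x (g x) := by
    rintro x ⟨j, hj⟩
    -- an odd power of g maps x into its own component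
    have h1 := reach_pow hmap (2 * M - 1) hj
    rw [← Equiv.Perm.mul_apply, ← pow_add, ← Equiv.Perm.mul_apply, ← pow_succ] at h1
    have e1 : 2 * M - 1 + 1 = 2 * M * 1 := by omega
    rw [e1, hper] at h1
    set d := 2 * M - 1 + 2 * j with hd
    have hit : ∀ m : ℕ, (Cut G g).Reachable ((g ^ (d * m)) x) x := by
      intro m
      induction m with
      | zero => simp
      | succ m ih =>
        have h2 := reach_pow hmap d ih
        rw [← Equiv.Perm.mul_apply, ← pow_add] at h2
        rw [Nat.mul_succ, add_comm]
        exact h2.trans h1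
    have hcop : Nat.Coprime d (2 * M) := by
      rw [← hM]
      apply Nat.Coprime.pow_right
      rw [Nat.coprime_two_right]
      exact ⟨M - 1 + j, by omega⟩
    obtain ⟨m, -, hm⟩ := Nat.exists_mul_mod_eq_one_of_coprime hcop (by omega)
    have h3 := hit m
    rw [pow_eq_pow_mod (d * m) hk, hm, pow_one] at h3
    exact cut_not_reach hs (k := k) (by rw [hM]; exact hk) hodd x h3.symm
  let S : Setoid V := ⟨r, hrefl, fun {x y} => hsymm x y, fun {x y z} => htrans x y z⟩
  obtain ⟨N, ⟨idx⟩⟩ := Finite.exists_equiv_fin (Quotient S)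
  let h : V → Bool := fun x => decide (idx (Quotient.mk S x) < idx (Quotient.mk S (g x)))
  have hq : ∀ x y, (Cut G g).Reachable x y → Quotient.mk S x = Quotient.mk S y := by
    intro x y hxy
    exact Quotient.sound (s := S) ⟨0, by simpa using hxy⟩
  refine ⟨h, ?_, ?_⟩
  · intro x y hxy
    have e1 := hq x y hxy.reachable
    have e2 := hq (g x) (g y) (hmap x y hxy).reachable
    show decide _ = decide _
    rw [e1, e2]
  · intro x
    have e1 : Quotient.mk S (g (g x)) = Quotient.mk S x := by
      refine (Quotient.sound (s := S) ⟨1, ?_⟩).symm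
      rw [mul_one, pow_two, Equiv.Perm.mul_apply]
    have e2 : idx (Quotient.mk S x) ≠ idx (Quotient.mk S (g x)) := by
      intro e
      exact hne x (Quotient.exact (s := S) (idx.injective e))
    show decide _ = !decide _
    rw [e1]
    rcases lt_or_gt_of_ne e2 with hlt | hlt
    · simp [hlt, hlt.le]
    · simp [hlt, hlt.le]

/-- from a colour exchanging automorphism to one of order two -/
lemma exists_involution [Finite V] (hs : Swap G c g)
    (hodd : ∀ (g' : Equiv.Perm V), Swap G c g' → ∀ w, G.Reachable w (g' w) →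
      Odd (Nat.card {e : Sym2 V // Br G w e})) :
    ∃ t : V → V, (∀ x, t (t x) = x) ∧ (∀ x y, G.Adj x y → G.Adj (t x) (t y)) ∧
      ∀ x, c (t x) = !c x := by
  classical
  rcases isEmpty_or_nonempty V with hV | hV
  · exact ⟨id, fun x => rfl, fun x => (hV.false x).elim, fun x => (hV.false x).elim⟩
  obtain ⟨k, m, ⟨l, rfl⟩, hN⟩ := Nat.exists_eq_two_pow_mul_odd (orderOf_pos g).ne'
  have hs' : Swap G c (g ^ (2 * l + 1)) := hs.pow_odd l
  set g' := g ^ (2 * l + 1) with hg'
  have hk : g' ^ 2 ^ k = 1 := by
    rw [hg', ← pow_mul, mul_comm, ← hN, pow_orderOf_eq_one]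
  obtain ⟨h, h1, h2⟩ := exists_colour hs' hk (hodd g' hs')
  let t : V → V := fun x => if h x then g' x else g'.symm x
  have h2' : ∀ x, h (g'.symm x) = !h x := by
    intro x
    have := h2 (g'.symm x)
    rw [g'.apply_symm_apply] at this
    rw [this]; simp
  have hcs : ∀ x, c (g'.symm x) = !c x := by
    intro x
    have := hs'.col (g'.symm x)
    rw [g'.apply_symm_apply] at this
    rw [this]; simp
  refine ⟨t, ?_, ?_, ?_⟩
  · intro x
    by_cases hx : h x = true
    · have e1 : t x = g' x := if_pos hx
      have e2 : t (g' x) = g'.symm (g' x) := if_neg (by rw [h2, hx]; simp)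
      rw [e1, e2, g'.symm_apply_apply]
    · have e1 : t x = g'.symm x := if_neg hx
      have e2 : t (g'.symm x) = g' (g'.symm x) := if_pos (by
        rw [h2']; simpa using hx)
      rw [e1, e2, g'.apply_symm_apply]
  · intro x y hxy
    by_cases hh : h x = h y
    · by_cases hx : h x = true
      · have e1 : t x = g' x := if_pos hx
        have e2 : t y = g' y := if_pos (hh ▸ hx)
        rw [e1, e2]
        exact (hs'.adj x y).2 hxy
      · have e1 : t x = g'.symm x := if_neg hx
        have e2 : t y = g'.symm y := if_neg (by rw [← hh]; exact hx)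
        rw [e1, e2, ← hs'.adj, g'.apply_symm_apply, g'.apply_symm_apply]
        exact hxy
    · have hinv : g' x = y ∧ g' y = x := by
        by_contra hcon
        exact hh (h1 x y ⟨hxy, hcon⟩)
      have e1 : t x = y := by
        show (if h x = true then g' x else g'.symm x) = y
        split_ifs
        · exact hinv.1
        · rw [Equiv.symm_apply_eq]; exact hinv.2.symm
      have e2 : t y = x := by
        show (if h y = true then g' y else g'.symm y) = x
        split_ifs
        · exact hinv.2
        · rw [Equiv.symm_apply_eq]; exact hinv.1.symm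
      rw [e1, e2]
      exact hxy.symm
  · intro x
    show c (if h x = true then g' x else g'.symm x) = !c x
    split_ifs
    · exact hs'.col x
    · exact hcs x

end graph

/-- The bipartite graph of a square 0/1 matrix: rows `inl i`, columns `inr j`, row `i` and
column `j` are adjacent iff the entry `(i, j)` is `1` (here `true`). -/
def bip {n : ℕ} (A : Matrix (Fin n) (Fin n) Bool) : SimpleGraph (Fin n ⊕ Fin n) where
  Adj
    | Sum.inl i, Sum.inr j => A i j = true
    | Sum.inr j, Sum.inl i => A i j = true
    | _, _ => False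
  symm := ⟨by
    rintro (i | j) (i' | j') h
    · exact h
    · exact h
    · exact h
    · exact h⟩
  loopless := ⟨by
    rintro (i | j) h
    · exact h
    · exact h⟩

/-- Every connected component of the bipartite graph of `A` which contains as many rows as columns
has an odd number of bridges (edges whose deletion disconnects their ends). -/
def OddBridged {n : ℕ} (A : Matrix (Fin n) (Fin n) Bool) : Prop :=
  ∀ K : (bip A).ConnectedComponent,
    {i : Fin n | (bip A).connectedComponentMk (Sum.inl i) = K}.ncard =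
      {j : Fin n | (bip A).connectedComponentMk (Sum.inr j) = K}.ncard →
    Odd {e : Sym2 (Fin n ⊕ Fin n) | e ∈ (bip A).edgeSet ∧ (bip A).IsBridge e ∧
      ∃ v ∈ e, (bip A).connectedComponentMk v = K}.ncard

/-- the colour of a vertex -/
def side {n : ℕ} : Fin n ⊕ Fin n → Bool := Sum.isLeft

lemma inr_of {n : ℕ} {x : Fin n ⊕ Fin n} (h : side x = false) :
    x = Sum.inr (Sum.elim id id x) := by
  rcases x with i | j
  · exact absurd h (by simp [side])
  · rfl

lemma inl_of {n : ℕ} {x : Fin n ⊕ Fin n} (h : side x = true) :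
    x = Sum.inl (Sum.elim id id x) := by
  rcases x with i | j
  · rfl
  · exact absurd h (by simp [side])

lemma odd_of {n : ℕ} {A : Matrix (Fin n) (Fin n) Bool} (h : OddBridged A)
    (g : Equiv.Perm (Fin n ⊕ Fin n)) (hg : Swap (bip A) side g) (w : Fin n ⊕ Fin n)
    (hw : (bip A).Reachable w (g w)) :
    Odd (Nat.card {e : Sym2 (Fin n ⊕ Fin n) // Br (bip A) w e}) := by
  have hK : ∀ x, (bip A).connectedComponentMk x = (bip A).connectedComponentMk w →
      (bip A).connectedComponentMk (g x) = (bip A).connectedComponentMk w := by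
    intro x hx
    rw [ConnectedComponent.eq] at hx ⊢
    exact (reach_map (fun x y h => (hg.adj x y).2 h) hx).trans hw.symm
  have h1 : ∀ i, g (Sum.inl i) = Sum.inr (Sum.elim id id (g (Sum.inl i))) := fun i =>
    inr_of (by rw [hg.col]; rfl)
  have h2 : ∀ j, g (Sum.inr j) = Sum.inl (Sum.elim id id (g (Sum.inr j))) := fun j =>
    inl_of (by rw [hg.col]; rfl)
  have hbal : {i : Fin n | (bip A).connectedComponentMk (Sum.inl i) =
        (bip A).connectedComponentMk w}.ncard =
      {j : Fin n | (bip A).connectedComponentMk (Sum.inr j) =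
        (bip A).connectedComponentMk w}.ncard := by
    apply le_antisymm
    · refine Set.ncard_le_ncard_of_injOn (fun i => Sum.elim id id (g (Sum.inl i))) ?_ ?_
        (Set.toFinite _)
      · intro i hi
        have := hK _ hi
        rw [h1 i] at this
        exact this
      · intro i _ i' _ hii
        have : g (Sum.inl i) = g (Sum.inl i') := by
          rw [h1 i, h1 i']
          exact congrArg Sum.inr hii
        exact Sum.inl_injective (g.injective this)
    · refine Set.ncard_le_ncard_of_injOn (fun j => Sum.elim id id (g (Sum.inr j))) ?_ ?_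
        (Set.toFinite _)
      · intro j hj
        have := hK _ hj
        rw [h2 j] at this
        exact this
      · intro j _ j' _ hjj
        have : g (Sum.inr j) = g (Sum.inr j') := by
          rw [h2 j, h2 j']
          exact congrArg Sum.inl hjj
        exact Sum.inr_injective (g.injective this)
  have h3 := h _ hbal
  have h4 : {e : Sym2 (Fin n ⊕ Fin n) | e ∈ (bip A).edgeSet ∧ (bip A).IsBridge e ∧
      ∃ v ∈ e, (bip A).connectedComponentMk v = (bip A).connectedComponentMk w} =
      {e | Br (bip A) w e} := by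
    ext e
    simp only [Set.mem_ofPred_eq, Br, ConnectedComponent.eq]
    constructor
    · rintro ⟨a, b, v, hv, hr⟩
      exact ⟨a, b, v, hv, hr.symm⟩
    · rintro ⟨a, b, v, hv, hr⟩
      exact ⟨a, b, v, hv, hr.symm⟩
  rw [h4] at h3
  exact h3

theorem main {n : ℕ} (A : Matrix (Fin n) (Fin n) Bool) (h : OddBridged A) :
    (∃ σ : Equiv.Perm (Fin n), (A.submatrix σ id).IsSymm) ↔
      ∃ σ τ : Equiv.Perm (Fin n), A.submatrix σ τ = A.transpose := by
  constructor
  · rintro ⟨σ, hσ⟩
    refine ⟨σ, σ.symm, ?_⟩
    ext i j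
    have := congrFun (congrFun hσ (σ.symm j)) i
    simp only [Matrix.transpose_apply, Matrix.submatrix_apply, id, Equiv.apply_symm_apply]
      at this ⊢
    exact this
  · rintro ⟨σ, τ, hA⟩
    have hA' : ∀ i j, A (σ i) (τ j) = A j i := fun i j => congrFun (congrFun hA i) j
    let g : Equiv.Perm (Fin n ⊕ Fin n) := (Equiv.sumCongr τ σ).trans (Equiv.sumComm _ _)
    have hg : Swap (bip A) side g := by
      refine ⟨?_, ?_⟩
      · rintro (i | i) (j | j)
        · exact Iff.rfl
        · show A (σ j) (τ i) = true ↔ A i j = true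
          rw [hA']
        · show A (σ i) (τ j) = true ↔ A j i = true
          rw [hA']
        · exact Iff.rfl
      · rintro (i | i) <;> rfl
    obtain ⟨t, ht, hadj, hcol⟩ := exists_involution hg (odd_of h)
    have h1 : ∀ i, t (Sum.inl i) = Sum.inr (Sum.elim id id (t (Sum.inl i))) := fun i =>
      inr_of (by rw [hcol]; rfl)
    have h2 : ∀ j, t (Sum.inr j) = Sum.inl (Sum.elim id id (t (Sum.inr j))) := fun j =>
      inl_of (by rw [hcol]; rfl)
    set ρ : Fin n → Fin n := fun i => Sum.elim id id (t (Sum.inl i)) with hρ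
    set l : Fin n → Fin n := fun j => Sum.elim id id (t (Sum.inr j)) with hl
    have h1' : ∀ i, t (Sum.inl i) = Sum.inr (ρ i) := h1
    have h2' : ∀ j, t (Sum.inr j) = Sum.inl (l j) := h2
    have hlρ : ∀ i, l (ρ i) = i := by
      intro i
      have := ht (Sum.inl i)
      rw [h1', h2'] at this
      exact Sum.inl_injective this
    have hρl : ∀ j, ρ (l j) = j := by
      intro j
      have := ht (Sum.inr j)
      rw [h2', h1'] at this
      exact Sum.inr_injective this
    have hkey : ∀ i j, A (l i) j = true → A (l j) i = true := by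
      intro i j hij
      have h3 : (bip A).Adj (Sum.inl (l i)) (Sum.inr j) := hij
      have h4 := hadj _ _ h3
      rw [h1', h2', hρl] at h4
      exact h4
    refine ⟨⟨l, ρ, hρl, hlρ⟩, ?_⟩
    ext i j
    show A (l j) i = A (l i) j
    rw [Bool.eq_iff_iff]
    exact ⟨hkey j i, hkey i j⟩

theorem forest {n : ℕ} (A : Matrix (Fin n) (Fin n) Bool) (h : (bip A).IsAcyclic) :
    OddBridged A := by
  classical
  intro K hK
  have htree : K.toSimpleGraph.IsTree := ⟨K.connected_toSimpleGraph, h.induce _⟩
  have hcard := htree.card_edgeFinset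
  rw [← Nat.card_eq_fintype_card] at hcard
  have e1 : Nat.card K = K.supp.ncard := rfl
  have e2 : K.supp = Sum.inl '' {i : Fin n | (bip A).connectedComponentMk (Sum.inl i) = K} ∪
      Sum.inr '' {j : Fin n | (bip A).connectedComponentMk (Sum.inr j) = K} := by
    ext x
    rcases x with i | j
    · simp [ConnectedComponent.mem_supp_iff]
    · simp [ConnectedComponent.mem_supp_iff]
  have e3 : K.supp.ncard =
      2 * {i : Fin n | (bip A).connectedComponentMk (Sum.inl i) = K}.ncard := by
    rw [e2, Set.ncard_union_eq ?_ (Set.toFinite _) (Set.toFinite _),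
      Set.ncard_image_of_injective _ Sum.inl_injective,
      Set.ncard_image_of_injective _ Sum.inr_injective, ← hK]
    · ring
    · rw [Set.disjoint_left]
      rintro x ⟨i, -, rfl⟩ ⟨j, -, hj⟩
      exact absurd hj (by simp)
  have e4 : {e : Sym2 (Fin n ⊕ Fin n) | e ∈ (bip A).edgeSet ∧ (bip A).IsBridge e ∧
      ∃ v ∈ e, (bip A).connectedComponentMk v = K} =
      Sym2.map Subtype.val '' K.toSimpleGraph.edgeSet := by
    ext e
    constructor
    · rintro ⟨he, -, v, hv, hvK⟩
      induction e using Sym2.ind with
      | _ x y =>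
        rw [mem_edgeSet] at he
        have hxy : (bip A).connectedComponentMk x = (bip A).connectedComponentMk y :=
          ConnectedComponent.eq.2 he.reachable
        have hx : (bip A).connectedComponentMk x = K := by
          rw [Sym2.mem_iff] at hv
          rcases hv with rfl | rfl
          · exact hvK
          · exact hxy.trans hvK
        have hy : (bip A).connectedComponentMk y = K := hxy.symm.trans hx
        exact ⟨s(⟨x, hx⟩, ⟨y, hy⟩), he, rfl⟩
    · rintro ⟨e', he', rfl⟩
      induction e' using Sym2.ind with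
      | _ x y =>
        have hxy : (bip A).Adj x.1 y.1 := he'
        exact ⟨hxy, (isAcyclic_iff_forall_adj_isBridge.1 h) hxy, x.1,
          Sym2.mem_iff.2 (Or.inl rfl), x.2⟩
  rw [e4, Set.ncard_image_of_injective _ (Sym2.map.injective Subtype.val_injective)]
  have e5 : K.toSimpleGraph.edgeSet.ncard = K.toSimpleGraph.edgeFinset.card := by
    rw [← coe_edgeFinset, Set.ncard_coe_finset]
  rw [e5, Nat.odd_iff]
  omega

end OddBridges

namespace Pool.Agent.Results.MP_e2e0ab_lc.OddBridges

open _root_.OddBridges

/-- **Theorem.** Let `A` be an `n × n` 0/1 matrix such that every connected component of its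
bipartite graph with as many rows as columns has an odd number of bridges (all forests are
included).  The rows of `A` can be reordered to a symmetric matrix iff `A` is carried to its
transpose by independent permutations of rows and columns. -/
theorem result (n : ℕ) (A : Matrix (Fin n) (Fin n) Bool) :
    (OddBridged A →
      ((∃ σ : Equiv.Perm (Fin n), (A.submatrix σ id).IsSymm) ↔
        ∃ σ τ : Equiv.Perm (Fin n), A.submatrix σ τ = A.transpose)) ∧
    ((bip A).IsAcyclic → OddBridged A) :=
  ⟨main A, forest A⟩

end Pool.Agent.Results.MP_e2e0ab_lc.OddBridges
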