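import Pool.Agent.Lib.MatSym.Main

/-!
# MP_e2e0ab_lc: matrix symmetry is decided in one Sylow 2-subgroup

A square `0/1` matrix can be made symmetric by reordering its rows iff one (equivalently: every)
Sylow 2-subgroup of the group of automorphisms of its bipartite graph which keep or swap the sides
contains an element `g` with `g² = 1` which swaps the sides.
-/

namespace Pool.Agent.Results.MP_e2e0ab_lc.SylowTwo

open MatSym

theorem result {n : ℕ} (A : Fin n → Fin n → Bool) (Q : Sylow 2 (Gam A)) :
    MS A ↔ ∃ g : Gam A, g ∈ Q ∧ g * g = 1 ∧ Swaps (g : Equiv.Perm (Fin n ⊕ Fin n)) :=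
  sylow_iff A Q

end Pool.Agent.Results.MP_e2e0ab_lc.SylowTwo
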